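import Pool.Agent.Y55.Col.Many
import Pool.Agent.H350R3.MG.PLem

/-!
# The Hilbert function of general triple points in `ℙⁿ`: perfect powers and their collisions

`H_{n,r}^{(3)}(d) = min (binom (n + d) d) (r * binom (n + 2) 2)` if `r` triple points in degree `d`
belong to one of two classes of pairs of a degree and a multiset of multiplicities. The classes
contain `t ^ n` points of the same multiplicity `μ` in the cases `Case n t μ d` and every multiset of
at least `3 ^ n` multiplicities outside a window of degrees, and they are closed under collisions: a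
point of multiplicity `μ` can be replaced by points for which there are no forms (for which the
conditions are independent) in degree `μ - 1`.
-/

set_option autoImplicit false

namespace Pool.Agent.Results.MP_7123bd_ag.TriplePoints

open MvPolynomial
open scoped LinearAlgebra.Projectivization
open Pool.Agent.H350R3.MG

/-- The `m`-th symbolic power of the ideal of the points `P₁, …, P_r`. -/
noncomputable def symbolicPower {n r : ℕ} (m : ℕ) (P : Fin r → ℙ ℂ (Fin (n + 1) → ℂ)) :
    Ideal (MvPolynomial (Fin (n + 1)) ℂ) :=
  ⨅ i, primeIdeal (P i) ^ m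

/-- The Hilbert function `dim R_d - dim J_d` of `R / J`. -/
noncomputable def hilbert {n : ℕ} (J : Ideal (MvPolynomial (Fin (n + 1)) ℂ)) (d : ℕ) : ℤ :=
  (Module.finrank ℂ (homogeneousSubmodule (Fin (n + 1)) ℂ d) : ℤ) -
    Module.finrank ℂ (homogeneousSubmodule (Fin (n + 1)) ℂ d ⊓ Submodule.restrictScalars ℂ J :
      Submodule ℂ (MvPolynomial (Fin (n + 1)) ℂ))

/-- `h` is the value `H_{n,r}^{(m)}(d)`: the Hilbert function of `R / I^(m)` has the value `h` in
degree `d` for all the `r`-tuples of points in a nonempty Zariski open set. -/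
def IsGeneralHilbertValue (n r m d : ℕ) (h : ℤ) : Prop :=
  Generally (fun P : Fin r → ℙ ℂ (Fin (n + 1) → ℂ) => hilbert (symbolicPower m P) d = h)

/-- The cases for `t ^ n` points of multiplicity `μ` in degree `d`. -/
def Case (n t μ d : ℕ) : Prop :=
  (n - 1) * t ^ n ≤ μ ∨ d < t * μ ∨ 2 * t * μ + (n - 1) * t ≤ 2 * d + n + 1 ∨
    (d + t + n - t * μ).choose n ≤ t ^ n ∨
    ((t = 2 ∧ (n ≤ 5 ∨ n = 7)) ∨ (t = 3 ∧ n ≤ 4) ∨ (t ≤ 5 ∧ n ≤ 3))

/-- The smallest class of pairs consisting of a degree `d` and a multiset `M` of multiplicities of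
points of `ℙⁿ` with the following properties:

* it contains `t ^ n` points of multiplicity `μ` in degree `d` in the cases `Case n t μ d`, provided
  that `binom (d + n) n ≤ t ^ n * binom (μ + n - 1) n`;
* for `n ≥ 2` it contains every multiset `M` of `s ≥ 3 ^ n` multiplicities in the degrees `d` with
  `s ^ ((n - 1) / n) * d < ∑ M`;
* it is closed under adding a point and under decreasing the degree;
* if it contains `{μ} + M` in degree `d` and `M'` in degree `μ - 1`, it contains `M' + M` in
  degree `d`. -/
inductive NoForms (n : ℕ) : ℕ → Multiset ℕ → Prop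
  | powers (t μ d : ℕ) (ht : 1 ≤ t) (hc : Case n t μ d)
      (h : (d + n).choose n ≤ t ^ n * (μ + n - 1).choose n) :
      NoForms n d (Multiset.replicate (t ^ n) μ)
  | many (d : ℕ) (M : Multiset ℕ) (hn : 2 ≤ n) (hM : 3 ^ n ≤ M.card)
      (h : M.card ^ (n - 1) * d ^ n < M.sum ^ n) : NoForms n d M
  | point (d b : ℕ) (M : Multiset ℕ) (h : NoForms n d M) : NoForms n d (b ::ₘ M)
  | degree (d d' : ℕ) (M : Multiset ℕ) (hd : d' ≤ d) (h : NoForms n d M) : NoForms n d' M
  | collision (d μ : ℕ) (M M' : Multiset ℕ) (h : NoForms n d (μ ::ₘ M))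
      (h' : NoForms n (μ - 1) M') : NoForms n d (M' + M)

/-- The smallest class of pairs consisting of a degree `d` and a multiset `M` of multiplicities of
points of `ℙⁿ` with the following properties:

* it contains `t ^ n` points of multiplicity `μ` in degree `d` in the cases `Case n t μ d`, provided
  that `t ^ n * binom (μ + n - 1) n ≤ binom (d + n) n`;
* for `n ≥ 2` it contains every multiset `M` of `s ≥ 3 ^ n` multiplicities in the degrees `d` with
  `s ^ (1 / n) * (a + n - 1) ≤ d - (n - 1)` for all `a` in `M`;
* it is closed under removing a point and under increasing the degree;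
* if it contains `{μ} + M` in degree `d` and `M'` in degree `μ - 1`, where `μ ≥ 1`, it contains
  `M' + M` in degree `d`. -/
inductive Independent (n : ℕ) : ℕ → Multiset ℕ → Prop
  | powers (t μ d : ℕ) (ht : 1 ≤ t) (hc : Case n t μ d)
      (h : t ^ n * (μ + n - 1).choose n ≤ (d + n).choose n) :
      Independent n d (Multiset.replicate (t ^ n) μ)
  | many (d : ℕ) (M : Multiset ℕ) (hn : 2 ≤ n) (hM : 3 ^ n ≤ M.card)
      (h : ∀ a ∈ M, M.card * (a + (n - 1)) ^ n ≤ (d - (n - 1)) ^ n) : Independent n d M
  | remove (d b : ℕ) (M : Multiset ℕ) (h : Independent n d (b ::ₘ M)) : Independent n d M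
  | degree (d d' : ℕ) (M : Multiset ℕ) (hd : d ≤ d') (h : Independent n d M) : Independent n d' M
  | collision (d μ : ℕ) (M M' : Multiset ℕ) (hμ : 1 ≤ μ) (h : Independent n d (μ ::ₘ M))
      (h' : Independent n (μ - 1) M') : Independent n d (M' + M)

lemma emp {n d : ℕ} {M : Multiset ℕ} (h : NoForms (n + 1) d M) :
    Pool.Agent.Y55.Col.Emp (n + 1) (d + 1) M := by
  induction h with
  | powers t μ d ht hc h =>
    have h1 := Pool.Agent.Y55.Col.emp_of_general _
      (Pool.Agent.Y55.Col.uniform_zero n t μ d ht hc h)
    rw [Multiset.map_const', Finset.card_val, Finset.card_univ, Fintype.card_fin] at h1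
    exact h1
  | many d M hn hM h => exact Pool.Agent.Y55.Col.manyN_emp (by omega) hM h
  | point d b M h ih => exact ih.point b
  | degree d d' M hd h ih => exact ih.mono (by omega)
  | collision d μ M M' h h' ih ih' => exact ih.collision (ih'.mono (by omega))

lemma ind {n d : ℕ} {M : Multiset ℕ} (h : Independent (n + 1) d M) :
    Pool.Agent.Y55.Col.Ind n (d + 1) M := by
  induction h with
  | powers t μ d ht hc h => exact Pool.Agent.Y55.Col.ind_powers n t μ d ht hc h
  | many d M hn hM h => exact Pool.Agent.Y55.Col.manyN_ind (by omega) hM h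
  | remove d b M h ih => exact ih.remove
  | degree d d' M hd h ih => exact ih.degree (by omega)
  | collision d μ M M' hμ h h' ih ih' =>
    rw [Nat.sub_add_cancel hμ] at ih'
    exact ih.collision ih'

lemma choose_three (k : ℕ) : (3 + k).choose (k + 1) = (k + 1 + 2).choose 2 := by
  have h1 : 3 + k = k + 3 := by omega
  rw [h1, ← Nat.choose_symm (show k + 1 ≤ k + 3 by omega)]
  congr 1
  omega

/-- The Hilbert function of `r` general triple points of `ℙⁿ` in degree `d`, if they belong to the
class `NoForms` or to the class `Independent`. -/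
theorem result (n r d : ℕ) (hn : 1 ≤ n)
    (h : NoForms n d (Multiset.replicate r 3) ∨ Independent n d (Multiset.replicate r 3)) :
    IsGeneralHilbertValue n r 3 d (min ((n + d).choose d) (r * (n + 2).choose 2) : ℕ) := by
  obtain ⟨k, rfl⟩ : ∃ k, n = k + 1 := ⟨n - 1, by omega⟩
  have e0 : ((Finset.univ : Finset (Fin r)).val.map fun _ => 3) = Multiset.replicate r 3 := by
    rw [Multiset.map_const', Finset.card_val, Finset.card_univ, Fintype.card_fin]
  have e1 : (k + 1 + d).choose d = (d + (k + 1)).choose (k + 1) := by
    rw [add_comm, ← Nat.choose_symm (show d ≤ d + (k + 1) by omega), Nat.add_sub_cancel_left]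
  have key : Pool.Agent.H938R2.ForGeneral (k + 2) r (fun p =>
      Module.finrank ℂ (Pool.Agent.H938R2.forms (k + 2) d (fun _ => 3) p) =
        (d + (k + 1)).choose (k + 1) - r * (k + 1 + 2).choose 2) := by
    rcases h with h | h
    · have h1 := emp h
      rw [← e0] at h1
      refine ((Pool.Agent.Y55.Col.general_of_emp h1).and
        (Pool.Agent.H938R2.forGeneral_ne_zero (by omega))).mono fun p hp => ?_
      have h3 := Pool.Agent.H938R2.finrank_forms_ge (k + 1) d (fun _ : Fin r => 3) p hp.2
      have h4 : ∑ _i : Fin r, (3 + (k + 1) - 1).choose (k + 1) = r * (k + 1 + 2).choose 2 := by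
        rw [Finset.sum_const, Finset.card_univ, Fintype.card_fin, smul_eq_mul, ← choose_three]
        rfl
      rw [h4, hp.1, finrank_bot, zero_add] at h3
      rw [hp.1, finrank_bot]
      omega
    · have h1 := ind h
      rw [← e0] at h1
      refine (Pool.Agent.Y55.Col.general_of_ind h1).mono fun p hp => ?_
      rw [Finset.sum_const, Finset.card_univ, Fintype.card_fin, smul_eq_mul, choose_three] at hp
      omega
  obtain ⟨D, hD, h⟩ := key
  refine generally_of_poly D hD fun v hv hp => ?_
  have h1 := h v hp
  unfold hilbert symbolicPower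
  rw [Pool.Agent.TH176.FB.forms_eq_symbolic v hv, h1,
    Pool.Agent.TH206.Fro.dim_thm (k + 2) d ℂ, Pool.Agent.TH176.FB.card_Mon_choose (k + 1) d, e1]
  omega

end Pool.Agent.Results.MP_7123bd_ag.TriplePoints
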